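import Mathlib

/-!
# Several limit fixed points on a geometrically irreducible subvariety

Let `F` be a finite field with `q` elements, `n ≥ 1`, and let `P` be a separable polynomial of degree
`n` over `F`, with homogenization `P^h(X, Z)`. On affine 6-space with coordinates
`(X, W, Z, Y, U, V)` take

`T = ((Z - W) X Z ^ N, (Z - W) W ^ q P^h(X, Z) ^ (q - 1), (Z - W) Z ^ (N + 1),`
`     Z (U - Y) Y V ^ (q - 1), Z (U - Y) U ^ q, Z (U - Y) V ^ q)`, `N = (n + 1)(q - 1)`,

and let `S` be the surface `{(x, P(x) ^ (q - 1), 1, y, y ^ q, 1)}`, a copy of the affine plane.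
The first block is homogeneous: `T ^ k` maps the point of `S` given by `(x, y)` to
`(z x, z P(x) ^ (q ^ (k + 1) - 1), z, c y, c y ^ (q ^ (k + 1)), c)`, where `z` and `c` depend on
`k`, `x`, `y`. If `P(x) ≠ 0` then `P(x) ^ (q ^ m - 1) = 1` for some `m`, which makes `z = 0`, and then
`c = 0`: the point goes to the origin. If `P(x) = 0` then `z = 1` for all `k`, and `c = 0` as soon as
`y ^ (q ^ m) = y`: the point goes to the fixed point `(x, 0, 1, 0, 0, 0)`. So there are
exactly `n + 1` limit fixed points, every one with an infinite basin on which the number of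
iterations is unbounded.
-/

set_option autoImplicit false

namespace Pool.Agent.Results.MP_2dcdad_ag.SeveralLimits

open MvPolynomial Function

section defs

variable {F : Type*} [Field F] (K : Type*) [Field K] [Algebra F K] {N : ℕ}

/-- The action on `K`-points of the polynomial self-map `T` of affine `N`-space over `F`. -/
noncomputable def act (T : Fin N → MvPolynomial (Fin N) F) (v : Fin N → K) : Fin N → K :=
  fun i => aeval v (T i)

/-- The `K`-points of the closed subvariety of affine `N`-space with ideal `I`. -/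
def points (I : Ideal (MvPolynomial (Fin N) F)) : Set (Fin N → K) :=
  {v | ∀ p ∈ I, aeval v p = 0}

/-- The fixed points of `T` that are reached from some `K`-point of the subvariety by an iterate
`T ^ k`, `k ≥ 1`. -/
def limits (T : Fin N → MvPolynomial (Fin N) F) (I : Ideal (MvPolynomial (Fin N) F)) :
    Set (Fin N → K) :=
  {P | IsFixedPt (act K T) P ∧ ∃ Q ∈ points K I, ∃ k ≥ 1, (act K T)^[k] Q = P}

/-- The `K`-points of the subvariety that are sent to `P` by some iterate `T ^ k`, `k ≥ 1`. -/
def basin (T : Fin N → MvPolynomial (Fin N) F) (I : Ideal (MvPolynomial (Fin N) F))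
    (P : Fin N → K) : Set (Fin N → K) :=
  {Q | Q ∈ points K I ∧ ∃ k ≥ 1, (act K T)^[k] Q = P}

end defs

section construction

variable {F : Type*} [Field F] (q n : ℕ) (P : Polynomial F)

/-- The homogenization of `P` in degree `n`, in the variables `X 0` and `X 2`. -/
noncomputable def homog : MvPolynomial (Fin 6) F :=
  ∑ i ∈ Finset.range (n + 1), C (P.coeff i) * X 0 ^ i * X 2 ^ (n - i)

/-- The map. -/
noncomputable def mapT : Fin 6 → MvPolynomial (Fin 6) F :=
  ![(X 2 - X 1) * (X 0 * X 2 ^ ((n + 1) * (q - 1))),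
    (X 2 - X 1) * (X 1 ^ q * homog n P ^ (q - 1)),
    (X 2 - X 1) * X 2 ^ ((n + 1) * (q - 1) + 1),
    X 2 * (X 4 - X 3) * (X 3 * X 5 ^ (q - 1)),
    X 2 * (X 4 - X 3) * X 4 ^ q,
    X 2 * (X 4 - X 3) * X 5 ^ q]

/-- The ideal of the surface. -/
noncomputable def surf {R : Type*} [CommRing R] (P : Polynomial R) (q : ℕ) :
    Ideal (MvPolynomial (Fin 6) R) :=
  Ideal.span {X 2 - 1, X 5 - 1, X 1 - (Polynomial.aeval (X 0) P) ^ (q - 1), X 4 - X 3 ^ q}

/-- The points that occur on orbits. -/
def pt {K : Type*} [Field K] (z x w c y u : K) : Fin 6 → K :=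
  ![z * x, z * w, z, c * y, c * u, c]

variable {K : Type*} [Field K] [Algebra F K]

theorem homog_eval (hn : P.natDegree = n) (z x w c y u : K) :
    aeval (pt z x w c y u) (homog n P) = z ^ n * Polynomial.aeval x P := by
  subst hn
  rw [Polynomial.aeval_eq_sum_range, homog, map_sum, Finset.mul_sum]
  refine Finset.sum_congr rfl fun i hi => ?_
  have hi' : i ≤ P.natDegree := Nat.lt_succ_iff.mp (Finset.mem_range.mp hi)
  have h : z ^ P.natDegree = z ^ i * z ^ (P.natDegree - i) := by
    rw [← pow_add, Nat.add_sub_cancel' hi']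
  simp only [map_mul, map_pow, aeval_X, pt, Matrix.cons_val_zero, Matrix.cons_val,
    MvPolynomial.algHom_C, Algebra.smul_def, h]
  ring

theorem act_pt (hq : 1 ≤ q) (hn : P.natDegree = n) (z x w c y u : K) :
    act K (mapT q n P) (pt z x w c y u) =
      pt (z ^ ((n + 1) * (q - 1) + 2) * (1 - w)) x (w ^ q * (Polynomial.aeval x P) ^ (q - 1))
        (z * c ^ (q + 1) * (u - y)) y (u ^ q) := by
  have hh := homog_eval n P hn z x w c y u
  obtain ⟨e, rfl⟩ : ∃ e, q = e + 1 := ⟨q - 1, by omega⟩
  simp only [Nat.add_sub_cancel] at *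
  funext i
  fin_cases i
  · simp [act, mapT, pt]; ring
  · simp only [act, mapT, pt, Fin.mk_one, Matrix.cons_val_one, map_mul, map_sub, map_pow, aeval_X,
      Matrix.cons_val]
    have : aeval (![z * x, z * w, z, c * y, c * u, c] : Fin 6 → K) (homog n P) =
      z ^ n * Polynomial.aeval x P := hh
    simp only [Nat.add_sub_cancel]
    rw [this]
    ring
  · simp [act, mapT, pt]; ring
  · simp [act, mapT, pt]; ring
  · simp [act, mapT, pt]; ring
  · simp [act, mapT, pt]; ring

/-- The scaling factors along an orbit. -/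
noncomputable def sc (x y : K) : ℕ → K × K
  | 0 => (1, 1)
  | k + 1 => ((sc x y k).1 ^ ((n + 1) * (q - 1) + 2) *
      (1 - (Polynomial.aeval x P) ^ (q ^ (k + 1) - 1)),
      (sc x y k).1 * (sc x y k).2 ^ (q + 1) * (y ^ q ^ (k + 1) - y))

/-- The point of the surface with parameters `x` and `y`. -/
noncomputable def start (x y : K) : Fin 6 → K :=
  pt 1 x ((Polynomial.aeval x P) ^ (q - 1)) 1 y (y ^ q)

theorem iter (hq : 1 ≤ q) (hn : P.natDegree = n) (x y : K) (k : ℕ) :
    (act K (mapT q n P))^[k] (start q P x y) =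
      pt (sc q n P x y k).1 x ((Polynomial.aeval x P) ^ (q ^ (k + 1) - 1))
        (sc q n P x y k).2 y (y ^ q ^ (k + 1)) := by
  induction k with
  | zero => simp [start, sc]
  | succ k ih =>
    rw [iterate_succ_apply', ih, act_pt q n P hq hn]
    have h1 : (Polynomial.aeval x P ^ (q ^ (k + 1) - 1)) ^ q * Polynomial.aeval x P ^ (q - 1) =
        Polynomial.aeval x P ^ (q ^ (k + 1 + 1) - 1) := by
      rw [← pow_mul, ← pow_add]
      congr 1
      have h2 : 1 ≤ q ^ (k + 1) := Nat.one_le_pow _ _ hq
      rw [Nat.sub_mul, ← pow_succ, one_mul]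
      have h3 : q ≤ q ^ (k + 1 + 1) := by
        calc q = 1 * q := (one_mul q).symm
          _ ≤ q ^ (k + 1) * q := Nat.mul_le_mul_right q h2
          _ = _ := (pow_succ q (k + 1)).symm
      omega
    have h2 : (y ^ q ^ (k + 1)) ^ q = y ^ q ^ (k + 1 + 1) := by
      rw [← pow_mul, ← pow_succ]
    rw [h1, h2]
    rfl

theorem act_zero (hq : 1 ≤ q) (hn : P.natDegree = n) :
    act K (mapT q n P) (0 : Fin 6 → K) = 0 := by
  have h0 : (0 : Fin 6 → K) = pt 0 0 0 0 0 0 := by
    funext i; fin_cases i <;> simp [pt]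
  rw [h0, act_pt q n P hq hn]
  funext i; fin_cases i <;> simp [pt]

/-- The other limits. -/
def lim (x : K) : Fin 6 → K := ![x, 0, 1, 0, 0, 0]

theorem act_lim (hq : 2 ≤ q) (hn : P.natDegree = n) (x : K) :
    act K (mapT q n P) (lim x) = lim x := by
  have h0 : (lim x : Fin 6 → K) = pt 1 x 0 0 0 0 := by
    funext i; fin_cases i <;> simp [pt, lim]
  rw [h0, act_pt q n P (by omega) hn]
  funext i; fin_cases i <;> simp [pt, show q ≠ 0 by omega]

theorem mem_points_iff (v : Fin 6 → K) :
    v ∈ points K (surf P q) ↔ v = start q P (v 0) (v 3) := by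
  have hk : v ∈ points K (surf P q) ↔ ∀ p ∈ ({X 2 - 1, X 5 - 1,
      X 1 - (Polynomial.aeval (X 0) P) ^ (q - 1), X 4 - X 3 ^ q} :
        Set (MvPolynomial (Fin 6) F)), aeval v p = 0 := by
    have h1 : v ∈ points K (surf P q) ↔ surf P q ≤ RingHom.ker (aeval v : _ →ₐ[F] K) := by
      rfl
    rw [h1, surf, Ideal.span_le]
    rfl
  rw [hk]
  have hc : aeval v ((Polynomial.aeval (X 0) P : MvPolynomial (Fin 6) F)) =
      Polynomial.aeval (v 0) P := by
    rw [← Polynomial.aeval_algHom_apply, aeval_X]
  simp only [Set.mem_insert_iff, Set.mem_singleton_iff, forall_eq_or_imp, forall_eq, map_sub,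
    map_pow, aeval_X, map_one, sub_eq_zero, hc]
  constructor
  · rintro ⟨h2, h5, h1, h4⟩
    funext i
    fin_cases i <;> simp [start, pt, h2, h5, h1, h4]
  · intro h
    have h2 : v 2 = 1 := by rw [h]; simp [start, pt]
    have h5 : v 5 = 1 := by rw [h]; simp [start, pt]
    have h1 : v 1 = Polynomial.aeval (v 0) P ^ (q - 1) := by
      conv_lhs => rw [h]
      simp [start, pt]
    have h4 : v 4 = v 3 ^ q := by
      conv_lhs => rw [h]
      simp [start, pt]
    exact ⟨h2, h5, h1, h4⟩

theorem start_mem (x y : K) : start q P x y ∈ points K (surf P q) := by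
  rw [mem_points_iff]
  have h0 : start q P x y 0 = x := by simp [start, pt]
  have h3 : start q P x y 3 = y := by simp [start, pt]
  rw [h0, h3]

/-- The ideal of the surface is prime over every field. -/
theorem surf_prime {R : Type*} [Field R] (P : Polynomial R) (q : ℕ) : (surf P q).IsPrime := by
  let φ : MvPolynomial (Fin 6) R →ₐ[R] MvPolynomial (Fin 2) R :=
    aeval ![X 0, (Polynomial.aeval (X 0) P) ^ (q - 1), 1, X 1, X 1 ^ q, 1]
  let ψ : MvPolynomial (Fin 2) R →ₐ[R] MvPolynomial (Fin 6) R := aeval ![X 0, X 3]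
  have hker : surf P q = RingHom.ker φ := by
    apply le_antisymm
    · rw [surf, Ideal.span_le]
      have hP : φ (Polynomial.aeval (X 0) P) = Polynomial.aeval (X 0) P := by
        rw [← Polynomial.aeval_algHom_apply]
        simp [φ]
      intro p hp
      simp only [Set.mem_insert_iff, Set.mem_singleton_iff] at hp
      change φ p = 0
      rcases hp with rfl | rfl | rfl | rfl
      · simp [φ]
      · simp [φ]
      · rw [map_sub, map_pow, hP]; simp [φ]
      · simp [φ]
    · intro p hp
      have hp' : φ p = 0 := hp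
      let mk : MvPolynomial (Fin 6) R →ₐ[R] (MvPolynomial (Fin 6) R ⧸ surf P q) :=
        Ideal.Quotient.mkₐ R (surf P q)
      have hmk : ∀ a b : MvPolynomial (Fin 6) R, a - b ∈ surf P q → mk a = mk b := fun a b h =>
        Ideal.Quotient.eq.2 h
      have hg : ∀ g ∈ ({X 2 - 1, X 5 - 1,
          X 1 - (Polynomial.aeval (X 0) P) ^ (q - 1), X 4 - X 3 ^ q} :
            Set (MvPolynomial (Fin 6) R)), g ∈ surf P q := fun g hg => Ideal.subset_span hg
      have heq : mk = (mk.comp ψ).comp φ := by
        apply MvPolynomial.algHom_ext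
        intro i
        have hψP : ψ (Polynomial.aeval (X 0) P) = Polynomial.aeval (X 0) P := by
          rw [← Polynomial.aeval_algHom_apply]
          simp [ψ]
        simp only [AlgHom.comp_apply]
        fin_cases i
        · simp [φ, ψ]
        · have : φ (X 1) = (Polynomial.aeval (X 0) P) ^ (q - 1) := by simp [φ]
          change mk (X 1) = mk (ψ (φ (X 1)))
          rw [this, map_pow ψ, hψP]
          exact hmk _ _ (hg _ (by simp))
        · have : φ (X 2) = 1 := by simp [φ]
          change mk (X 2) = mk (ψ (φ (X 2)))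
          rw [this, map_one ψ]
          exact hmk _ _ (hg _ (by simp))
        · simp [φ, ψ]
        · have : φ (X 4) = X 1 ^ q := by simp [φ]
          change mk (X 4) = mk (ψ (φ (X 4)))
          rw [this, map_pow ψ]
          have h2 : ψ (X 1) = X 3 := by simp [ψ]
          rw [h2]
          exact hmk _ _ (hg _ (by simp))
        · have : φ (X 5) = 1 := by simp [φ]
          change mk (X 5) = mk (ψ (φ (X 5)))
          rw [this, map_one ψ]
          exact hmk _ _ (hg _ (by simp))
      have : mk p = 0 := by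
        rw [heq]
        simp only [AlgHom.comp_apply, hp', map_zero]
      exact Ideal.Quotient.eq_zero_iff_mem.1 this
  rw [hker]
  exact RingHom.ker_isPrime _

theorem surf_map : (surf P q).map (MvPolynomial.map (algebraMap F K)) =
    surf (P.map (algebraMap F K)) q := by
  have hP : MvPolynomial.map (algebraMap F K) (Polynomial.aeval (X 0 : MvPolynomial (Fin 6) F) P) =
      Polynomial.aeval (X 0 : MvPolynomial (Fin 6) K) (P.map (algebraMap F K)) := by
    rw [Polynomial.aeval_def, Polynomial.hom_eval₂, Polynomial.aeval_def, Polynomial.eval₂_map]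
    congr 1
    · ext a
      simp [MvPolynomial.algebraMap_eq]
    · simp
  rw [surf, surf, Ideal.map_span]
  congr 1
  simp only [Set.image_insert_eq, Set.image_singleton, map_sub, map_pow, map_X, map_one, hP]

end construction

section finite

variable {F : Type*} [Field F] [Finite F] {K : Type*} [Field K] [Algebra F K] [IsAlgClosure F K]

omit [Finite F] in
theorem exists_sep (n : ℕ) (hn : 1 ≤ n) : ∃ P : Polynomial F, P.natDegree = n ∧ P.Separable := by
  by_cases h : (n : F) = 0
  · have h1 : 1 < n := by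
      rcases Nat.lt_or_ge 1 n with h1 | h1
      · exact h1
      · exfalso
        have : n = 1 := by omega
        subst this
        simp at h
    refine ⟨Polynomial.X ^ n - Polynomial.X, FiniteField.X_pow_card_sub_X_natDegree_eq F h1, ?_⟩
    rw [Polynomial.separable_def]
    have : Polynomial.derivative (Polynomial.X ^ n - Polynomial.X : Polynomial F) = -1 := by
      rw [Polynomial.derivative_sub, Polynomial.derivative_X_pow, h]
      simp
    rw [this]
    exact isCoprime_one_right.neg_right
  · exact ⟨Polynomial.X ^ n - Polynomial.C 1, Polynomial.natDegree_X_pow_sub_C,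
      Polynomial.separable_X_pow_sub_C 1 h one_ne_zero⟩

theorem exists_pow (y : K) : ∃ m, 1 ≤ m ∧ y ^ (Nat.card F) ^ m = y := by
  have : Algebra.IsAlgebraic F K := IsAlgClosure.isAlgebraic
  have hy : IsIntegral F y := Algebra.IsIntegral.isIntegral y
  have : FiniteDimensional F (IntermediateField.adjoin F {y}) :=
    IntermediateField.adjoin.finiteDimensional hy
  have : Finite (IntermediateField.adjoin F {y}) := Module.finite_of_finite F
  have : Fintype (IntermediateField.adjoin F {y}) := Fintype.ofFinite _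
  have : Fintype F := Fintype.ofFinite _
  refine ⟨Module.finrank F (IntermediateField.adjoin F {y}), Module.finrank_pos, ?_⟩
  have h := FiniteField.pow_card
    (⟨y, IntermediateField.mem_adjoin_simple_self F y⟩ : IntermediateField.adjoin F {y})
  rw [Module.card_eq_pow_finrank (K := F)] at h
  rw [Nat.card_eq_fintype_card]
  exact congrArg Subtype.val h

theorem exists_pow_one (y : K) (hy : y ≠ 0) : ∃ m, 1 ≤ m ∧ y ^ ((Nat.card F) ^ m - 1) = 1 := by
  obtain ⟨m, hm, h⟩ := exists_pow (F := F) y
  refine ⟨m, hm, ?_⟩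
  have h1 : 1 ≤ (Nat.card F) ^ m := Nat.one_le_pow _ _ Nat.card_pos
  have h2 : y ^ ((Nat.card F) ^ m - 1) * y = 1 * y := by
    rw [← pow_succ, Nat.sub_add_cancel h1, h, one_mul]
  exact mul_right_cancel₀ hy h2

theorem inf_K (F K : Type*) [Field F] [Field K] [Algebra F K] [IsAlgClosure F K] :
    Infinite K := by
  have : IsAlgClosed K := IsAlgClosure.isAlgClosed F
  infer_instance

/-- Elements of large degree. -/
theorem exists_large (k : ℕ) : ∃ v : K, v ≠ 0 ∧ ∀ j, 1 ≤ j → j ≤ k →
    v ^ (Nat.card F) ^ j ≠ v := by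
  have : Infinite K := inf_K F K
  have hq : 1 < Nat.card F := Finite.one_lt_card
  let p : Polynomial K := Polynomial.X *
    ∏ j ∈ Finset.Icc 1 k, (Polynomial.X ^ (Nat.card F) ^ j - Polynomial.X)
  have hp : p ≠ 0 := by
    refine mul_ne_zero Polynomial.X_ne_zero (Finset.prod_ne_zero_iff.2 fun j hj => ?_)
    have h1 : 1 < (Nat.card F) ^ j := Nat.one_lt_pow (by
      have := (Finset.mem_Icc.1 hj).1
      omega) hq
    exact FiniteField.X_pow_card_sub_X_ne_zero K h1
  obtain ⟨v, hv⟩ : ∃ v : K, Polynomial.eval v p ≠ 0 := by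
    by_contra hcon
    push Not at hcon
    exact hp (Polynomial.funext (by simpa using hcon))
  have hv' : v * ∏ j ∈ Finset.Icc 1 k, (v ^ (Nat.card F) ^ j - v) ≠ 0 := by
    simpa [p, Polynomial.eval_prod] using hv
  refine ⟨v, left_ne_zero_of_mul hv', fun j h1 h2 h => ?_⟩
  have := Finset.prod_ne_zero_iff.1 (right_ne_zero_of_mul hv') j (Finset.mem_Icc.2 ⟨h1, h2⟩)
  exact this (sub_eq_zero.2 h)

variable (n : ℕ) (P : Polynomial F)

/-- The first scaling factor is `1` over the roots of `P`. -/
theorem sc_root {x : K} (hx : Polynomial.aeval x P = 0) (y : K) (k : ℕ) :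
    (sc (Nat.card F) n P x y k).1 = 1 := by
  have hq : 1 < Nat.card F := Finite.one_lt_card
  induction k with
  | zero => rfl
  | succ k ih =>
    have h1 : Nat.card F ^ (k + 1) - 1 ≠ 0 := by
      have : 1 < Nat.card F ^ (k + 1) := Nat.one_lt_pow (by omega) hq
      omega
    simp [sc, ih, hx, h1]

theorem sc_fst_ne {x : K} (k : ℕ) (h0 : Polynomial.aeval x P ≠ 0)
    (hx : ∀ j, 1 ≤ j → j ≤ k → (Polynomial.aeval x P) ^ (Nat.card F) ^ j ≠ Polynomial.aeval x P)
    (y : K) : (sc (Nat.card F) n P x y k).1 ≠ 0 := by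
  induction k with
  | zero => simp [sc]
  | succ k ih =>
    simp only [sc]
    refine mul_ne_zero (pow_ne_zero _ (ih fun j h1 h2 => hx j h1 (by omega))) ?_
    intro h
    apply hx (k + 1) (by omega) le_rfl
    have h1 : 1 ≤ (Nat.card F) ^ (k + 1) := Nat.one_le_pow _ _ Nat.card_pos
    calc (Polynomial.aeval x P) ^ (Nat.card F) ^ (k + 1)
        = (Polynomial.aeval x P) ^ ((Nat.card F) ^ (k + 1) - 1) * Polynomial.aeval x P := by
          rw [← pow_succ, Nat.sub_add_cancel h1]
      _ = Polynomial.aeval x P := by rw [← sub_eq_zero.1 h, one_mul]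

theorem sc_snd_ne {x : K} (hx : Polynomial.aeval x P = 0) (y : K) (k : ℕ)
    (hy : ∀ j, 1 ≤ j → j ≤ k → y ^ (Nat.card F) ^ j ≠ y) :
    (sc (Nat.card F) n P x y k).2 ≠ 0 := by
  induction k with
  | zero => simp [sc]
  | succ k ih =>
    simp only [sc]
    rw [sc_root n P hx, one_mul]
    refine mul_ne_zero (pow_ne_zero _ (ih fun j h1 h2 => hy j h1 (by omega))) ?_
    exact sub_ne_zero.2 (hy (k + 1) (by omega) le_rfl)

variable {n P}

theorem reach_zero (hn : P.natDegree = n) (x y : K) (hx : Polynomial.aeval x P ≠ 0) :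
    ∃ k ≥ 1, (act K (mapT (Nat.card F) n P))^[k] (start (Nat.card F) P x y) = 0 := by
  have hq : 1 ≤ Nat.card F := Nat.card_pos
  obtain ⟨m, hm, h⟩ := exists_pow_one (F := F) _ hx
  obtain ⟨m, rfl⟩ : ∃ l, m = l + 1 := ⟨m - 1, by omega⟩
  refine ⟨m + 2, by omega, ?_⟩
  have h1 : (sc (Nat.card F) n P x y (m + 1)).1 = 0 := by
    simp [sc, h]
  rw [iter _ n P hq hn]
  simp only [show m + 2 = (m + 1) + 1 from rfl]
  have h2 : (sc (Nat.card F) n P x y (m + 1 + 1)).1 = 0 := by
    rw [sc]
    simp [h1]
  have h3 : (sc (Nat.card F) n P x y (m + 1 + 1)).2 = 0 := by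
    rw [sc]
    simp [h1]
  rw [h2, h3]
  funext i; fin_cases i <;> simp [pt]

theorem reach_lim (hn : P.natDegree = n) (x y : K) (hx : Polynomial.aeval x P = 0) :
    ∃ k ≥ 1, (act K (mapT (Nat.card F) n P))^[k] (start (Nat.card F) P x y) = lim x := by
  have hq : 1 < Nat.card F := Finite.one_lt_card
  obtain ⟨m, hm, h⟩ := exists_pow (F := F) y
  refine ⟨m, hm, ?_⟩
  obtain ⟨m, rfl⟩ : ∃ l, m = l + 1 := ⟨m - 1, by omega⟩
  have h3 : (sc (Nat.card F) n P x y (m + 1)).2 = 0 := by
    simp [sc, h]
  have h1 : Nat.card F ^ (m + 1 + 1) - 1 ≠ 0 := by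
    have : 1 < Nat.card F ^ (m + 1 + 1) := Nat.one_lt_pow (by omega) hq
    omega
  rw [iter _ n P hq.le hn, h3, sc_root n P hx, hx, zero_pow h1]
  funext i; fin_cases i <;> simp [pt, lim]

theorem lim_ne_zero {K : Type*} [Field K] (x : K) : (lim x : Fin 6 → K) ≠ 0 := by
  intro h
  have := congrFun h 2
  simp [lim] at this

theorem lim_inj {K : Type*} [Field K] : Function.Injective (lim : K → Fin 6 → K) := by
  intro x x' h
  have := congrFun h 0
  simpa [lim] using this

/-- Where a point of the surface goes. -/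
theorem eventually_unique {α : Type*} {f : α → α} {a b c : α} (hb : IsFixedPt f b)
    (hc : IsFixedPt f c) {k l : ℕ} (h1 : f^[k] a = b) (h2 : f^[l] a = c) : b = c := by
  have e1 : f^[l + k] a = b := by
    rw [iterate_add_apply, h1]
    exact (hb.iterate l)
  have e2 : f^[k + l] a = c := by
    rw [iterate_add_apply, h2]
    exact (hc.iterate k)
  rw [← e1, ← e2, Nat.add_comm]

omit [Finite F] in
theorem exists_value (hn1 : 1 ≤ P.natDegree) (v : K) : ∃ x : K, Polynomial.aeval x P = v := by
  have : IsAlgClosed K := IsAlgClosure.isAlgClosed F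
  have hd : (P.map (algebraMap F K) - Polynomial.C v).degree ≠ 0 := by
    intro h
    have h1 : (P.map (algebraMap F K) - Polynomial.C v).natDegree = 0 :=
      Polynomial.natDegree_eq_of_degree_eq_some h
    rw [Polynomial.natDegree_sub_C, Polynomial.natDegree_map] at h1
    omega
  obtain ⟨x, hx⟩ := IsAlgClosed.exists_root _ hd
  refine ⟨x, ?_⟩
  rw [Polynomial.IsRoot.def, Polynomial.eval_sub, Polynomial.eval_C, Polynomial.eval_map,
    ← Polynomial.aeval_def, sub_eq_zero] at hx
  exact hx

theorem limits_eq (hn : P.natDegree = n) (hn1 : 1 ≤ n) :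
    limits K (mapT (Nat.card F) n P) (surf P (Nat.card F)) =
      insert 0 (lim '' {x : K | Polynomial.aeval x P = 0}) := by
  have hq : 1 < Nat.card F := Finite.one_lt_card
  have hf0 : IsFixedPt (act K (mapT (Nat.card F) n P)) 0 := act_zero _ n P hq.le hn
  have hfl : ∀ x : K, IsFixedPt (act K (mapT (Nat.card F) n P)) (lim x) :=
    fun x => act_lim _ n P hq hn x
  ext R
  constructor
  · rintro ⟨hR, Q, hQ, k, hk, hkR⟩
    rw [mem_points_iff] at hQ
    rw [hQ] at hkR
    by_cases hx : Polynomial.aeval (Q 0) P = 0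
    · obtain ⟨l, hl, hlR⟩ := reach_lim hn (Q 0) (Q 3) hx
      exact Or.inr ⟨Q 0, hx, eventually_unique (hfl _) hR hlR hkR⟩
    · obtain ⟨l, hl, hlR⟩ := reach_zero hn (Q 0) (Q 3) hx
      exact Or.inl (eventually_unique hf0 hR hlR hkR).symm
  · rintro (rfl | ⟨x, hx, rfl⟩)
    · obtain ⟨v, hv, -⟩ := exists_large (F := F) (K := K) 0
      obtain ⟨x, hx⟩ := exists_value (P := P) (by omega) v
      obtain ⟨l, hl, hlR⟩ := reach_zero (F := F) hn x 0 (by rw [hx]; exact hv)
      exact ⟨hf0, _, start_mem _ P x 0, l, hl, hlR⟩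
    · obtain ⟨l, hl, hlR⟩ := reach_lim (F := F) hn x 0 hx
      exact ⟨hfl x, _, start_mem _ P x 0, l, hl, hlR⟩

omit [Finite F] [IsAlgClosure F K] in
theorem start_inj (q : ℕ) (x : K) : Function.Injective (start q P x : K → Fin 6 → K) := by
  intro y y' h
  have := congrFun h 3
  simpa [start, pt] using this

/-- **Several limit fixed points.** Let `F` be a finite field with algebraic closure `K`. For every
`n ≥ 1` there are a polynomial self-map `T` of affine 6-space over `F` and a geometrically
irreducible closed subvariety (with ideal `I`) such that every geometric point of the subvariety is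
sent by some iterate to a fixed point of `T`; exactly `n + 1` fixed points occur as such limits; and
every one of them has an infinite basin, on which the number of iterations needed is unbounded. -/
theorem result (F : Type*) [Field F] [Finite F] (K : Type*) [Field K] [Algebra F K]
    [IsAlgClosure F K] (n : ℕ) (hn : 1 ≤ n) :
    ∃ (T : Fin 6 → MvPolynomial (Fin 6) F) (I : Ideal (MvPolynomial (Fin 6) F)),
      (I.map (MvPolynomial.map (algebraMap F K))).IsPrime ∧
      (∀ Q ∈ points K I, ∃ k ≥ 1, IsFixedPt (act K T) ((act K T)^[k] Q)) ∧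
      (limits K T I).ncard = n + 1 ∧
      ∀ R ∈ limits K T I, (basin K T I R).Infinite ∧
        ∀ k, ∃ Q ∈ basin K T I R, (act K T)^[k] Q ≠ R := by
  have hq : 1 < Nat.card F := Finite.one_lt_card
  have hKinf : Infinite K := inf_K F K
  obtain ⟨P, hP, hsep⟩ := exists_sep (F := F) n hn
  have hf0 : IsFixedPt (act K (mapT (Nat.card F) n P)) 0 := act_zero _ n P hq.le hP
  have hfl : ∀ x : K, IsFixedPt (act K (mapT (Nat.card F) n P)) (lim x) :=
    fun x => act_lim _ n P hq hP x
  refine ⟨mapT (Nat.card F) n P, surf P (Nat.card F), ?_, ?_, ?_, ?_⟩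
  · rw [surf_map]
    exact surf_prime _ _
  · intro Q hQ
    rw [mem_points_iff] at hQ
    rw [hQ]
    by_cases hx : Polynomial.aeval (Q 0) P = 0
    · obtain ⟨l, hl, hlR⟩ := reach_lim hP (Q 0) (Q 3) hx
      exact ⟨l, hl, by rw [hlR]; exact hfl _⟩
    · obtain ⟨l, hl, hlR⟩ := reach_zero hP (Q 0) (Q 3) hx
      exact ⟨l, hl, by rw [hlR]; exact hf0⟩
  · rw [limits_eq hP hn]
    have : IsAlgClosed K := IsAlgClosure.isAlgClosed F
    have hroots : {x : K | Polynomial.aeval x P = 0} = P.rootSet K := by
      ext x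
      rw [Polynomial.mem_rootSet]
      simp only [Set.mem_setOf_eq]
      refine ⟨fun h => ⟨?_, h⟩, fun h => h.2⟩
      rintro rfl
      simp at hP
      omega
    have hfin : (lim '' {x : K | Polynomial.aeval x P = 0}).Finite := by
      rw [hroots]
      exact (Polynomial.rootSet_finite P K).image _
    rw [Set.ncard_insert_of_notMem _ hfin, Set.ncard_image_of_injective _ lim_inj, hroots,
      ← Nat.card_coe_set_eq, Nat.card_eq_fintype_card,
      Polynomial.card_rootSet_eq_natDegree hsep (IsAlgClosed.splits _), hP]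
    rintro ⟨x, -, hx⟩
    exact lim_ne_zero x hx
  · intro R hR
    rw [limits_eq hP hn] at hR
    rcases hR with rfl | ⟨x, hx, rfl⟩
    · constructor
      · obtain ⟨v, hv, -⟩ := exists_large (F := F) (K := K) 0
        obtain ⟨x, hx⟩ := exists_value (P := P) (by omega) v
        refine Set.infinite_of_injective_forall_mem (f := start (Nat.card F) P x) (start_inj _ x)
          fun y => ⟨start_mem _ P x y, reach_zero hP x y (by rw [hx]; exact hv)⟩
      · intro k
        obtain ⟨v, hv, hv'⟩ := exists_large (F := F) (K := K) k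
        obtain ⟨x, hx⟩ := exists_value (P := P) (by omega) v
        refine ⟨start (Nat.card F) P x 0, ⟨start_mem _ P x 0, reach_zero hP x 0 ?_⟩, ?_⟩
        · rw [hx]; exact hv
        · intro h
          rw [iter _ n P hq.le hP] at h
          have h2 := congrFun h 2
          have h3 : (sc (Nat.card F) n P x 0 k).1 = 0 := by simpa [pt] using h2
          exact sc_fst_ne n P k (by rw [hx]; exact hv) (by rw [hx]; exact hv') 0 h3
    · constructor
      · exact Set.infinite_of_injective_forall_mem (f := start (Nat.card F) P x) (start_inj _ x)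
          fun y => ⟨start_mem _ P x y, reach_lim hP x y hx⟩
      · intro k
        obtain ⟨y, hy, hy'⟩ := exists_large (F := F) (K := K) k
        refine ⟨start (Nat.card F) P x y, ⟨start_mem _ P x y, reach_lim hP x y hx⟩, ?_⟩
        intro h
        rw [iter _ n P hq.le hP] at h
        have h2 := congrFun h 5
        have h3 : (sc (Nat.card F) n P x y k).2 = 0 := by simpa [pt, lim] using h2
        exact sc_snd_ne n P hx y k hy' h3

end finite

end Pool.Agent.Results.MP_2dcdad_ag.SeveralLimits
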